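import Pool.Agent.Q156.PlaneRot

/-!
A convex body in three-space, not an ellipsoid, all of whose orthogonal projections onto
planes are linear images of completely symmetric sets.  The body has support function
`h v = (|v|^4 + v_2^4)^(1/4)`.
-/

open MeasureTheory Metric Module
open scoped RealInnerProductSpace

namespace Pool.Agent.Results.MP_b27533_gt.NotAnEllipsoid

open Pool.Agent.Q156

/-- `B` is a linear image of a completely symmetric set. -/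
def IsLinearImageOfCompletelySymmetric {V : Type*} [NormedAddCommGroup V] [InnerProductSpace ℝ V]
    [FiniteDimensional ℝ V] [MeasurableSpace V] [BorelSpace V] (B : Set V) : Prop :=
  ∃ (T : V ≃ₗ[ℝ] V) (A : Set V), CompletelySymmetric A ∧ B = T '' A

section abstract

variable {V : Type*} [NormedAddCommGroup V] [InnerProductSpace ℝ V]

/-- Stretching by `m` in the direction of the unit vector `f`. -/
noncomputable def stretchMap (f : V) (m : ℝ) : V →ₗ[ℝ] V where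
  toFun v := v + ((m - 1) * ⟪f, v⟫) • f
  map_add' x y := by rw [inner_add_right]; module
  map_smul' c x := by rw [inner_smul_right, RingHom.id_apply]; module

theorem stretchMap_apply (f : V) (m : ℝ) (v : V) :
    stretchMap f m v = v + ((m - 1) * ⟪f, v⟫) • f := rfl

theorem stretchMap_comp (f : V) (hf : ‖f‖ = 1) (m k : ℝ) (hmk : m * k = 1) (v : V) :
    stretchMap f m (stretchMap f k v) = v := by
  rw [stretchMap_apply, stretchMap_apply, inner_add_right, inner_smul_right,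
    real_inner_self_eq_norm_sq, hf]
  have : v + ((k - 1) * ⟪f, v⟫) • f + ((m - 1) * (⟪f, v⟫ + (k - 1) * ⟪f, v⟫ * 1 ^ 2)) • f =
      v + ((m * k - 1) * ⟪f, v⟫) • f := by module
  rw [this, hmk]; simp

/-- The stretching as a linear equivalence. -/
noncomputable def stretch (f : V) (hf : ‖f‖ = 1) (m : ℝ) (hm : m ≠ 0) : V ≃ₗ[ℝ] V :=
  LinearEquiv.ofLinearMap (stretchMap f m) (stretchMap f m⁻¹)
    (by ext v; exact stretchMap_comp f hf m m⁻¹ (mul_inv_cancel₀ hm) v)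
    (by ext v; exact stretchMap_comp f hf m⁻¹ m (inv_mul_cancel₀ hm) v)

theorem stretchMap_symm (f : V) (m : ℝ) (v w : V) :
    ⟪stretchMap f m v, w⟫ = ⟪v, stretchMap f m w⟫ := by
  rw [stretchMap_apply, stretchMap_apply, inner_add_left, inner_add_right, inner_smul_left,
    inner_smul_right, RCLike.conj_to_real, real_inner_comm f v]
  ring

theorem wulff_stretch (h : V → ℝ) (f : V) (hf : ‖f‖ = 1) (m : ℝ) (hm : m ≠ 0) :
    wulff h = stretch f hf m hm '' wulff (fun w => h (stretchMap f m⁻¹ w)) := by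
  ext x
  constructor
  · intro hx
    refine ⟨stretchMap f m⁻¹ x, ?_, stretchMap_comp f hf m m⁻¹ (mul_inv_cancel₀ hm) x⟩
    intro w
    rw [stretchMap_symm]
    exact hx _
  · rintro ⟨y, hy, rfl⟩ v
    change ⟪stretchMap f m y, v⟫ ≤ h v
    rw [stretchMap_symm]
    have := hy (stretchMap f m v)
    simp only at this
    rwa [stretchMap_comp f hf m⁻¹ m (inv_mul_cancel₀ hm) v] at this

end abstract

/-- The support function. -/
noncomputable def hfun (v : E3) : ℝ := √√(‖v‖ ^ 4 + v 2 ^ 4)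

theorem hfun_nonneg (v : E3) : 0 ≤ hfun v := Real.sqrt_nonneg _

theorem hfun_pow (v : E3) : hfun v ^ 4 = ‖v‖ ^ 4 + v 2 ^ 4 := by
  have h : hfun v ^ 4 = (√√(‖v‖ ^ 4 + v 2 ^ 4) ^ 2) ^ 2 := by unfold hfun; ring
  rw [h, Real.sq_sqrt (Real.sqrt_nonneg _), Real.sq_sqrt (by positivity)]

theorem pow4_le {a b : ℝ} (hb : 0 ≤ b) (h : a ^ 4 ≤ b ^ 4) : a ≤ b := by
  by_contra hab
  push Not at hab
  have : b ^ 4 < a ^ 4 := by gcongr
  linarith

theorem pow4_eq {a b : ℝ} (ha : 0 ≤ a) (hb : 0 ≤ b) (h : a ^ 4 = b ^ 4) : a = b :=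
  le_antisymm (pow4_le hb h.le) (pow4_le ha h.ge)

theorem abs_coord_le (v : E3) (i : Fin 3) : |v i| ≤ ‖v‖ := by
  have := PiLp.norm_apply_le v i
  rwa [Real.norm_eq_abs] at this

theorem coord_pow_le (v : E3) (i : Fin 3) : v i ^ 4 ≤ ‖v‖ ^ 4 := by
  have h := abs_coord_le v i
  have : |v i| ^ 4 ≤ ‖v‖ ^ 4 := by gcongr
  rwa [show |v i| ^ 4 = v i ^ 4 from by
    rw [show (4 : ℕ) = 2 * 2 from rfl, pow_mul, pow_mul, sq_abs]] at this

theorem hfun_le (v : E3) : hfun v ≤ 2 * ‖v‖ := by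
  apply pow4_le (by positivity)
  rw [hfun_pow]
  have h := coord_pow_le v 2
  have : (0 : ℝ) ≤ ‖v‖ ^ 4 := by positivity
  nlinarith

theorem le_hfun (v : E3) : 1 * ‖v‖ ≤ hfun v := by
  apply pow4_le (hfun_nonneg v)
  rw [hfun_pow, one_mul]
  have : (0 : ℝ) ≤ v 2 ^ 4 := by positivity
  linarith

theorem hfun_smul (t : ℝ) (ht : 0 ≤ t) (v : E3) : hfun (t • v) = t * hfun v := by
  apply pow4_eq (hfun_nonneg _) (mul_nonneg ht (hfun_nonneg v))
  rw [hfun_pow, mul_pow, hfun_pow, norm_smul, Real.norm_of_nonneg ht]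
  simp only [PiLp.smul_apply, smul_eq_mul]
  ring

theorem amgm (a c : ℝ) : 4 * (a ^ 3 * c) ≤ 3 * a ^ 4 + c ^ 4 := by
  have : 3 * a ^ 4 + c ^ 4 - 4 * (a ^ 3 * c) = (a - c) ^ 2 * (2 * a ^ 2 + (a + c) ^ 2) := by ring
  have h : 0 ≤ (a - c) ^ 2 * (2 * a ^ 2 + (a + c) ^ 2) := by positivity
  linarith

/-- The point of the body with outer normal `v`, when `hfun v = 1`. -/
noncomputable def gradh (v : E3) : E3 := (‖v‖ ^ 2) • v + (v 2 ^ 3) • !₂[0, 0, 1]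

theorem inner_gradh (v w : E3) : ⟪gradh v, w⟫ = ‖v‖ ^ 2 * ⟪v, w⟫ + v 2 ^ 3 * w 2 := by
  rw [gradh, inner_add_left, inner_smul_left, inner_smul_left, RCLike.conj_to_real,
    RCLike.conj_to_real, inner_E3 (!₂[0, 0, 1]) w]
  simp

theorem gradh_mem (v : E3) (hv : hfun v = 1) : gradh v ∈ wulff hfun := by
  intro w
  rcases eq_or_ne w 0 with rfl | hw
  · simp [hfun]
  have hpos : 0 < ‖w‖ := norm_pos_iff.mpr hw
  have hhpos : 0 < hfun w := lt_of_lt_of_le (by linarith) (le_hfun w)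
  obtain ⟨z, hz⟩ : ∃ z, z = (hfun w)⁻¹ • w := ⟨_, rfl⟩
  have hwz : w = (hfun w) • z := by
    rw [hz, smul_smul, mul_inv_cancel₀ hhpos.ne', one_smul]
  have hzn : hfun z = 1 := by
    rw [hz, hfun_smul _ (by positivity), inv_mul_cancel₀ hhpos.ne']
  have h1 : ⟪gradh v, z⟫ ≤ 1 := by
    rw [inner_gradh]
    have e1 := hfun_pow v
    have e2 := hfun_pow z
    rw [hv] at e1
    rw [hzn] at e2
    have i1 : ⟪v, z⟫ ≤ ‖v‖ * ‖z‖ := real_inner_le_norm v z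
    have i2 : ‖v‖ ^ 2 * ⟪v, z⟫ ≤ ‖v‖ ^ 3 * ‖z‖ := by
      calc ‖v‖ ^ 2 * ⟪v, z⟫ ≤ ‖v‖ ^ 2 * (‖v‖ * ‖z‖) := by gcongr
        _ = ‖v‖ ^ 3 * ‖z‖ := by ring
    have a1 := amgm ‖v‖ ‖z‖
    have a2 := amgm (v 2) (z 2)
    linarith
  rw [hwz, inner_smul_right, hfun_smul _ hhpos.le, hzn]
  exact mul_le_mul_of_nonneg_left h1 hhpos.le

theorem attained (v : E3) : ∃ x ∈ wulff hfun, ⟪x, v⟫ = hfun v := by
  rcases eq_or_ne v 0 with rfl | hv
  · refine ⟨0, ?_, by simp [hfun]⟩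
    exact ball_subset_wulff hfun 1 le_hfun (by simp)
  have hpos : 0 < ‖v‖ := norm_pos_iff.mpr hv
  have hhpos : 0 < hfun v := lt_of_lt_of_le (by linarith) (le_hfun v)
  obtain ⟨z, hz⟩ : ∃ z, z = (hfun v)⁻¹ • v := ⟨_, rfl⟩
  have hvz : v = (hfun v) • z := by
    rw [hz, smul_smul, mul_inv_cancel₀ hhpos.ne', one_smul]
  have hzn : hfun z = 1 := by
    rw [hz, hfun_smul _ (by positivity), inv_mul_cancel₀ hhpos.ne']
  refine ⟨gradh z, gradh_mem z hzn, ?_⟩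
  conv_lhs => rw [hvz]
  rw [inner_smul_right, inner_gradh, real_inner_self_eq_norm_sq]
  have e1 := hfun_pow z
  rw [hzn] at e1
  have : ‖z‖ ^ 2 * ‖z‖ ^ 2 + z 2 ^ 3 * z 2 = 1 := by linarith
  rw [this, mul_one]

theorem compact : IsCompact (wulff hfun) := wulff_compact hfun 2 (by norm_num) hfun_le

/-- The Pythagorean identity in the plane orthogonal to `u`. -/
theorem pythag (u : E3) (hu : ‖u‖ = 1) (f w : (ℝ ∙ u)ᗮ) (hf : ‖f‖ = 1) :
    ‖w‖ ^ 2 = ⟪f, w⟫ ^ 2 + ⟪planeJ u f, w⟫ ^ 2 := by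
  have hu' : u 0 ^ 2 + u 1 ^ 2 + u 2 ^ 2 = 1 := by rw [← norm_E3, hu]; norm_num
  have hf' : (f : E3) 0 ^ 2 + (f : E3) 1 ^ 2 + (f : E3) 2 ^ 2 = 1 := by
    rw [← norm_E3]
    have : ‖(f : E3)‖ = 1 := hf
    rw [this]; norm_num
  have h1 := (mem_perp u f).mp f.2
  have h2 := (mem_perp u w).mp w.2
  have e1 : ‖w‖ ^ 2 = ‖(w : E3)‖ ^ 2 := rfl
  have e2 : ⟪f, w⟫ = ⟪(f : E3), (w : E3)⟫ := rfl
  have e3 : ⟪planeJ u f, w⟫ = ⟪crossE u f, (w : E3)⟫ := rfl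
  rw [e1, e2, e3, norm_E3, inner_E3, inner_E3, crossE_0, crossE_1, crossE_2]
  obtain ⟨a, ha⟩ : ∃ a, a = u 0 := ⟨_, rfl⟩
  obtain ⟨b, hb⟩ : ∃ b, b = u 1 := ⟨_, rfl⟩
  obtain ⟨c, hc⟩ : ∃ c, c = u 2 := ⟨_, rfl⟩
  obtain ⟨p, hp⟩ : ∃ p, p = (f : E3) 0 := ⟨_, rfl⟩
  obtain ⟨q, hq⟩ : ∃ q, q = (f : E3) 1 := ⟨_, rfl⟩
  obtain ⟨r, hr⟩ : ∃ r, r = (f : E3) 2 := ⟨_, rfl⟩
  obtain ⟨x, hx⟩ : ∃ x, x = (w : E3) 0 := ⟨_, rfl⟩
  obtain ⟨y, hy⟩ : ∃ y, y = (w : E3) 1 := ⟨_, rfl⟩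
  obtain ⟨z, hz⟩ : ∃ z, z = (w : E3) 2 := ⟨_, rfl⟩
  rw [← ha, ← hb, ← hc] at hu' h1 h2 ⊢
  rw [← hp, ← hq, ← hr] at hf' h1 ⊢
  rw [← hx, ← hy, ← hz] at h2 ⊢
  linear_combination (-(x ^ 2 + y ^ 2 + z ^ 2)) * hf' -
    ((x ^ 2 + y ^ 2 + z ^ 2) * (p ^ 2 + q ^ 2 + r ^ 2) - (p * x + q * y + r * z) ^ 2) * hu' -
    (2 * (a * p + b * q + c * r) * (p * x + q * y + r * z) -
      (p ^ 2 + q ^ 2 + r ^ 2) * (a * x + b * y + c * z)) * h2 +
    ((x ^ 2 + y ^ 2 + z ^ 2) * (a * p + b * q + c * r)) * h1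

theorem planeJ_inner (u : E3) (hu : ‖u‖ = 1) (x y : (ℝ ∙ u)ᗮ) :
    ⟪planeJ u x, planeJ u y⟫ = ⟪x, y⟫ := by
  rw [real_inner_eq_norm_mul_self_add_norm_mul_self_sub_norm_sub_mul_self_div_two,
    real_inner_eq_norm_mul_self_add_norm_mul_self_sub_norm_sub_mul_self_div_two,
    ← map_sub, planeJ_norm u hu, planeJ_norm u hu, planeJ_norm u hu]

theorem planeJ_skew (u : E3) (hu : ‖u‖ = 1) (x y : (ℝ ∙ u)ᗮ) :
    ⟪x, planeJ u y⟫ = -⟪planeJ u x, y⟫ := by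
  rw [← planeJ_inner u hu x (planeJ u y), planeJ_sq u hu, inner_neg_right]

/-- The normalised restriction of the support function to the plane orthogonal to `u`. -/
theorem stretched_pow (u : E3) (hu : ‖u‖ = 1) (f : (ℝ ∙ u)ᗮ) (hf : ‖f‖ = 1) (c m : ℝ)
    (hm : 0 < m) (hm4 : m ^ 4 = 1 + c ^ 4) (hc : ∀ v : (ℝ ∙ u)ᗮ, (v : E3) 2 = c * ⟪f, v⟫)
    (w : (ℝ ∙ u)ᗮ) :
    hfun (stretchMap f m⁻¹ w : (ℝ ∙ u)ᗮ) ^ 4 =
      ⟪f, w⟫ ^ 4 + 2 * m⁻¹ ^ 2 * ⟪f, w⟫ ^ 2 * ⟪planeJ u f, w⟫ ^ 2 + ⟪planeJ u f, w⟫ ^ 4 := by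
  rw [hfun_pow, hc]
  have e0 : ‖((stretchMap f m⁻¹ w : (ℝ ∙ u)ᗮ) : E3)‖ ^ 4 = (‖stretchMap f m⁻¹ w‖ ^ 2) ^ 2 := by
    rw [← pow_mul]; rfl
  have e1 : ⟪f, stretchMap f m⁻¹ w⟫ = m⁻¹ * ⟪f, w⟫ := by
    rw [stretchMap_apply, inner_add_right, inner_smul_right, real_inner_self_eq_norm_sq, hf]
    ring
  have e2 : ⟪planeJ u f, stretchMap f m⁻¹ w⟫ = ⟪planeJ u f, w⟫ := by
    have h0 : ⟪planeJ u f, f⟫ = 0 := by
      have := planeJ_skew u hu f f
      rw [real_inner_comm] at this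
      linarith
    rw [stretchMap_apply, inner_add_right, inner_smul_right, h0]
    ring
  rw [e0, pythag u hu f _ hf, e1, e2]
  have hmi : m⁻¹ ^ 4 * (1 + c ^ 4) = 1 := by
    rw [← hm4, ← mul_pow, inv_mul_cancel₀ hm.ne', one_pow]
  linear_combination ⟪f, w⟫ ^ 4 * hmi

theorem projection_case (u : E3) (hu : ‖u‖ = 1) :
    IsLinearImageOfCompletelySymmetric (hyperplaneProjection (wulff hfun) u) := by
  have hpr : hyperplaneProjection (wulff hfun) u = wulff (fun v : (ℝ ∙ u)ᗮ => hfun v) :=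
    proj_wulff hfun compact attained _
  obtain ⟨R, hR1, hR2⟩ := exists_rot (planeJ u) (planeJ_sq u hu) (planeJ_norm u hu) 0 1 (by norm_num)
  have hRJ : ∀ x, R x = planeJ u x := by
    intro x; rw [hR1]; simp
  set q : (ℝ ∙ u)ᗮ := (ℝ ∙ u)ᗮ.orthogonalProjectionOnto (!₂[0, 0, 1]) with hq
  have hqv : ∀ v : (ℝ ∙ u)ᗮ, ⟪q, v⟫ = (v : E3) 2 := by
    intro v
    rw [hq, Submodule.inner_orthogonalProjectionOnto_eq_of_mem_right, inner_E3]
    simp
  rw [hpr]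
  rcases eq_or_ne q 0 with h0 | h0
  · refine ⟨LinearEquiv.refl ℝ _, wulff (fun v : (ℝ ∙ u)ᗮ => hfun v), ?_,
      (Set.image_id _).symm⟩
    refine completelySymmetric_of_rotation (finrank_perp u hu) R (2 * 0) (by simp) hR2 _ ?_
    apply wulff_linearIsometry
    intro v
    apply pow4_eq (hfun_nonneg _) (hfun_nonneg _)
    rw [hfun_pow, hfun_pow, ← hqv, ← hqv, h0, inner_zero_left, inner_zero_left]
    have : ‖((R v : (ℝ ∙ u)ᗮ) : E3)‖ = ‖(v : E3)‖ := R.norm_map v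
    rw [this]
  · have hcpos : 0 < ‖q‖ := norm_pos_iff.mpr h0
    obtain ⟨f, hfdef⟩ : ∃ f, f = ‖q‖⁻¹ • q := ⟨_, rfl⟩
    have hf : ‖f‖ = 1 := by
      rw [hfdef, norm_smul, norm_inv, norm_norm, inv_mul_cancel₀ hcpos.ne']
    have hc : ∀ v : (ℝ ∙ u)ᗮ, (v : E3) 2 = ‖q‖ * ⟪f, v⟫ := by
      intro v
      rw [← hqv, hfdef, inner_smul_left, RCLike.conj_to_real, ← mul_assoc,
        mul_inv_cancel₀ hcpos.ne', one_mul]
    obtain ⟨m, hmdef⟩ : ∃ m, m = √√(1 + ‖q‖ ^ 4) := ⟨_, rfl⟩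
    have hm : 0 < m := by rw [hmdef]; positivity
    have hm4 : m ^ 4 = 1 + ‖q‖ ^ 4 := by
      have h : m ^ 4 = (√√(1 + ‖q‖ ^ 4) ^ 2) ^ 2 := by rw [hmdef]; ring
      rw [h, Real.sq_sqrt (Real.sqrt_nonneg _), Real.sq_sqrt (by positivity)]
    refine ⟨stretch f hf m hm.ne', wulff (fun w => hfun (stretchMap f m⁻¹ w : (ℝ ∙ u)ᗮ)), ?_,
      wulff_stretch (fun v : (ℝ ∙ u)ᗮ => hfun v) f hf m hm.ne'⟩
    refine completelySymmetric_of_rotation (finrank_perp u hu) R (2 * 0) (by simp) hR2 _ ?_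
    apply wulff_linearIsometry
    intro v
    apply pow4_eq (hfun_nonneg _) (hfun_nonneg _)
    rw [stretched_pow u hu f hf ‖q‖ m hm hm4 hc, stretched_pow u hu f hf ‖q‖ m hm hm4 hc, hRJ,
      planeJ_inner u hu, planeJ_skew u hu]
    ring

/-- **Result.**  There is a convex body `K` in three-dimensional Euclidean space which is not an
ellipsoid, while for every unit vector `u` the orthogonal projection of `K` onto the plane
`(ℝ ∙ u)ᗮ` is a linear image of a completely symmetric subset of that plane. -/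
theorem result : ∃ K : Set (EuclideanSpace ℝ (Fin 3)),
    IsCompact K ∧ Convex ℝ K ∧ (interior K).Nonempty ∧ ¬ IsEllipsoid K ∧
      ∀ u : EuclideanSpace ℝ (Fin 3), ‖u‖ = 1 →
        IsLinearImageOfCompletelySymmetric (hyperplaneProjection K u) := by
  refine ⟨wulff hfun, compact, wulff_convex _, wulff_interior hfun 1 (by norm_num) le_hfun,
    ?_, projection_case⟩
  rintro ⟨g, hK⟩
  -- the support function of an ellipsoid
  obtain ⟨c, hc⟩ : ∃ c, c = g 0 := ⟨_, rfl⟩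
  have hlin : ∀ x, g x = g.linear x + c := by
    intro x
    have := g.map_vadd 0 x
    rw [hc]
    simpa using this
  obtain ⟨L, hL⟩ : ∃ L : E3 →ₗ[ℝ] E3, ∀ x, L x = g.linear x := ⟨(g.linear : E3 →ₗ[ℝ] E3), fun _ => rfl⟩
  have hsup : ∀ v : E3, hfun v = ⟪c, v⟫ + ‖LinearMap.adjoint L v‖ := by
    intro v
    apply le_antisymm
    · obtain ⟨x, hx, hxv⟩ := attained v
      rw [hK] at hx
      obtain ⟨y, hy, rfl⟩ := hx
      rw [mem_closedBall, dist_zero_right] at hy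
      rw [← hxv, hlin, ← hL, inner_add_left, add_comm, ← LinearMap.adjoint_inner_right]
      have h1 : ⟪y, LinearMap.adjoint L v⟫ ≤ ‖y‖ * ‖LinearMap.adjoint L v‖ :=
        real_inner_le_norm _ _
      have h2 : ‖y‖ * ‖LinearMap.adjoint L v‖ ≤ 1 * ‖LinearMap.adjoint L v‖ :=
        mul_le_mul_of_nonneg_right hy (norm_nonneg _)
      linarith
    · obtain ⟨y, hyd⟩ : ∃ y, y = ‖LinearMap.adjoint L v‖⁻¹ • LinearMap.adjoint L v := ⟨_, rfl⟩
      have hy : ‖y‖ ≤ 1 := by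
        rw [hyd, norm_smul, norm_inv, norm_norm]
        exact inv_mul_le_one
      have hmem : g y ∈ wulff hfun := by
        rw [hK]
        exact ⟨y, by rwa [mem_closedBall, dist_zero_right], rfl⟩
      have h1 := hmem v
      rw [hlin, ← hL, inner_add_left, ← LinearMap.adjoint_inner_right, hyd, inner_smul_left,
        real_inner_self_eq_norm_sq, RCLike.conj_to_real] at h1
      have h2 : ‖LinearMap.adjoint L v‖⁻¹ * ‖LinearMap.adjoint L v‖ ^ 2 =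
          ‖LinearMap.adjoint L v‖ := by
        rcases eq_or_ne ‖LinearMap.adjoint L v‖ 0 with h | h
        · rw [h]; simp
        · field_simp
      linarith
  have hsq : ∀ v : E3, hfun v ^ 2 = ‖LinearMap.adjoint L v‖ ^ 2 := by
    intro v
    have h1 := hsup v
    have h2 := hsup (-v)
    have h3 : hfun (-v) = hfun v := by
      unfold hfun
      rw [norm_neg]
      simp only [PiLp.neg_apply]
      ring_nf
    rw [h3, inner_neg_right, map_neg, norm_neg] at h2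
    have : hfun v = ‖LinearMap.adjoint L v‖ := by linarith
    rw [this]
  have hpar : ∀ v w : E3, hfun (v + w) ^ 2 + hfun (v - w) ^ 2 = 2 * (hfun v ^ 2 + hfun w ^ 2) := by
    intro v w
    rw [hsq, hsq, hsq, hsq, map_add, map_sub]
    have := parallelogram_law_with_norm ℝ (LinearMap.adjoint L v) (LinearMap.adjoint L w)
    linarith
  have hval : ∀ v : E3, hfun v ^ 2 = √(‖v‖ ^ 4 + v 2 ^ 4) := by
    intro v
    unfold hfun
    rw [Real.sq_sqrt (Real.sqrt_nonneg _)]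
  obtain ⟨p, p0, p1, p2⟩ : ∃ p : E3, p 0 = 1 ∧ p 1 = 0 ∧ p 2 = 0 := ⟨!₂[1, 0, 0], rfl, rfl, rfl⟩
  obtain ⟨q, q0, q1, q2⟩ : ∃ q : E3, q 0 = 0 ∧ q 1 = 0 ∧ q 2 = 1 := ⟨!₂[0, 0, 1], rfl, rfl, rfl⟩
  have h := hpar p q
  rw [hval, hval, hval, hval] at h
  have n4 : ∀ v : E3, ‖v‖ ^ 4 = (v 0 ^ 2 + v 1 ^ 2 + v 2 ^ 2) ^ 2 := by
    intro v
    rw [← norm_E3, ← pow_mul]
  rw [n4, n4, n4, n4] at h
  simp only [PiLp.add_apply, PiLp.sub_apply, p0, p1, p2, q0, q1, q2] at h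
  norm_num at h
  have h5 : √5 < (2.24 : ℝ) := by
    rw [Real.sqrt_lt' (by norm_num)]; norm_num
  have h2 : (1.41 : ℝ) < √2 := by
    rw [Real.lt_sqrt (by norm_num)]; norm_num
  linarith

end Pool.Agent.Results.MP_b27533_gt.NotAnEllipsoid
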